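import Pool.Agent.H30.AddA

set_option autoImplicit false

namespace Pool.Agent.Results.MP_293d80_gt.CH

open Pool.Agent.H30 Set Cardinal

/-- The continuum hypothesis refutes the additivity of `Split(Λ, Λ)`. -/
theorem result (hc : (𝔠 : Cardinal.{0}) = ℵ₁) :
    ¬ ∀ S : Set (Set ℝ),
      S = {X : Set ℝ | ∀ 𝒰 : Set (Set X),
              (∀ U ∈ 𝒰, IsOpen U) →
              (Set.univ : Set X) ∉ 𝒰 →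
              (∀ x : X, {U ∈ 𝒰 | x ∈ U}.Infinite) →
              ∃ 𝒱 𝒲 : Set (Set X), 𝒱 ⊆ 𝒰 ∧ 𝒲 ⊆ 𝒰 ∧ Disjoint 𝒱 𝒲 ∧
                (∀ x : X, {U ∈ 𝒱 | x ∈ U}.Infinite) ∧
                (∀ x : X, {U ∈ 𝒲 | x ∈ U}.Infinite)} →
      ∀ X ∈ S, ∀ Y ∈ S, X ∪ Y ∈ S := fun h => by
  obtain ⟨X, Y, V, h1, h2, -, h4, h5, h6⟩ := Add.exists_real hc
  have H := fun (Z : Set ℝ) (hZ : Add.RSplit Z) (𝒰 : Set (Set Z)) e1 e2 e3 =>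
    hZ.isplit.split 𝒰 ⟨e1, e2, e3⟩
  have h7 := h _ rfl X (fun 𝒰 e1 e2 e3 => let ⟨𝒱, 𝒲, e4, e5, e6, e7⟩ := H X h1 𝒰 e1 e2 e3
      ⟨𝒱, 𝒲, e5 ▸ subset_union_left, e5 ▸ subset_union_right, e4, e6.2.2, e7.2.2⟩) Y
    fun 𝒰 e1 e2 e3 => let ⟨𝒱, 𝒲, e4, e5, e6, e7⟩ := H Y h2 𝒰 e1 e2 e3
      ⟨𝒱, 𝒲, e5 ▸ subset_union_left, e5 ▸ subset_union_right, e4, e6.2.2, e7.2.2⟩
  have h8 : Lam.Split (X ∪ Y : Set ℝ) := fun 𝒰 ⟨e1, e2, e3⟩ =>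
    let ⟨𝒱, 𝒲, e4, e5, e6, e7, e8⟩ := h7 𝒰 e1 e2 e3
    ⟨𝒱, 𝒰 \ 𝒱, disjoint_sdiff_right, union_diff_cancel e4, ⟨fun U hU => e1 U (e4 hU),
      fun h => e2 (e4 h), e7⟩, fun U hU => e1 U hU.1, fun h => e2 h.1, fun x => (e8 x).mono
        fun U hU => ⟨⟨e5 hU.1, disjoint_right.1 e6 hU.1⟩, hU.2⟩⟩
  obtain ⟨B, hB⟩ := h8.isplit (fun n => Subtype.val ⁻¹' V n)
    (fun n => (h4 n).preimage continuous_subtype_val) fun z => h5 z z.2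
  obtain ⟨x, hx, e | e⟩ := h6 B
  · exact let ⟨n, hn⟩ := (hB ⟨x, hx⟩).2.nonempty; hn.2 (e hn.1)
  · exact let ⟨n, hn⟩ := (hB ⟨x, hx⟩).1.nonempty; e hn.1 hn.2

end Pool.Agent.Results.MP_293d80_gt.CH
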